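import Pool.Agent.helper22.FI3.SpecCQ
import Pool.Agent.helper12.FI.Fin

set_option autoImplicit false

namespace Pool.Agent.FI3

open Pool.Agent.helper58.DC Pool.Agent.DI Pool.Agent.GR Pool.Agent.OB Pool.Agent.DR Pool.Agent.FI

theorem JCQ_qt {G : Type} [Group G] (p : ℕ) (L Z : Subgroup G) (hpg : IsPGroup p Z) (hle : Z ≤ L)
    (hcen : ∀ z ∈ Z, ∀ l ∈ L, z * l = l * z) :
    ∃ h : (Z.subgroupOf L).Normal, Qt p L Z (@QuotientGroup.mk' L _ (Z.subgroupOf L) h) := by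
  have h : (Z.subgroupOf L).Normal := by
    refine ⟨fun z hz l => ?_⟩
    rw [Subgroup.mem_subgroupOf] at hz ⊢
    have e := hcen z hz l l.2
    have e2 : ((l * z * l⁻¹ : L) : G) = z := by
      push_cast
      rw [← e]
      group
    rw [e2]
    exact hz
  refine ⟨h, hpg, hle, hcen, QuotientGroup.mk'_surjective _, fun l => ?_⟩
  rw [QuotientGroup.mk'_apply, QuotientGroup.eq_one_iff, Subgroup.mem_subgroupOf]

theorem JCQ_norm {G : Type} [Group G] (L Z : Subgroup G)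
    (hcen : ∀ z ∈ Z, ∀ l ∈ L, z * l = l * z) : L ≤ Subgroup.normalizer (Z : Set G) := by
  intro l hl
  rw [Subgroup.mem_normalizer_iff]
  intro h
  constructor
  · intro hh
    have e := hcen h hh l hl
    have e2 : l * h * l⁻¹ = h := by
      rw [← e]
      group
    rw [e2]
    exact hh
  · intro hh
    have e := hcen _ hh l hl
    have e2 : h = l * h * l⁻¹ := by
      have e3 : l * h * l⁻¹ * l = l * (l * h * l⁻¹) := e
      have e4 : l * h = l * (l * h * l⁻¹) := by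
        rw [← e3]
        group
      exact mul_left_cancel e4
    rw [e2]
    exact hh

theorem JCQ (hJD0 : JD0_stmt) (hJD1 : JD1_stmt) (hJOP : JOP_stmt) (hJEX : JEX_stmt) (hJIN : JIN_stmt)
    (hJSG : JSG_stmt) (hJDG : JDG_stmt) (hJCO : JCO_stmt) (hSBI : SBI_stmt) (hTPR : Pool.Agent.FI.TPR_stmt)
    (hA2 : A2_stmt) : JCQ_stmt := by
  intro p M hs G _ _ Z D L x' θ ψ₀ hZD hDL hab hcen hψ hθ hD c hc z₀ hz₀ hn
  have : Fact p.Prime := ⟨hs.pr⟩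
  have hZL : Z ≤ L := hZD.trans hDL
  have hZp : IsPGroup p Z := hD.pg.to_le hZD
  obtain ⟨⟨P, hP⟩, -⟩ := hA2 G p L
  obtain ⟨⟨hPL, hPp, hPn⟩, hPm⟩ := hP
  by_cases hPZ : P ≤ Z
  · have hZP : Z ≤ P := hPm ⟨hZL, hZp, JCQ_norm L Z hcen⟩
    have hPe : P = Z := le_antisymm hPZ hZP
    subst hPe
    have hOp : IsOp p L P := ⟨⟨hPL, hPp, hPn⟩, hPm⟩
    obtain ⟨hN, hq⟩ := JCQ_qt p L P hZp hZL hcen
    have hop := hJOP p G (L ⧸ P.subgroupOf L) L P _ hq hOp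
    obtain ⟨ψ₁, ⟨hψ₁, hB₁⟩, hk₁⟩ := hJEX p M hs G L P hZp hZL hcen ψ₀ hψ
    obtain ⟨-, -, -, hS4, -, -, -⟩ := hJSG p G (L ⧸ P.subgroupOf L) L P _ hq
    obtain ⟨χ, hχ, rfl⟩ := (hJIN p G (L ⧸ P.subgroupOf L) L P _ hq).2.2.1 ⊤ ψ₁ (by rw [hS4]; exact hψ₁) hk₁
    rw [(hTPR p M hs (L ⧸ P.subgroupOf L)).1] at hχ
    have hI := (hSBI p M hs G L _ _ hB₁).2
    have hD₁ : DefL p M L (infl (QuotientGroup.mk' (P.subgroupOf L)) χ) D x' :=
      ⟨hD.reg, hD.mem, hD.le, hD.pg, hD.card, fun h => hD.ne ((hI x' hD.mem).1 h),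
        fun y hy h => hD.min y hy fun h' => h ((hI y hy).2 h')⟩
    have hDG := hJDG p M hs G (L ⧸ P.subgroupOf L) L P _ hq χ hχ D x' hZD hD₁
    have hCO := hJCO p G (L ⧸ P.subgroupOf L) L P D _ hq hDL hab c hc z₀ hz₀ hn
    have hF := Pool.Agent.FI.Fin_div p hs.pr M hs.max hs.mem (L ⧸ P.subgroupOf L) hop χ hχ _ hDG c hCO
    rw [hJD1 p M hs G (L ⧸ P.subgroupOf L) L P _ hq hop χ hχ θ (hθ.trans hB₁.symm), mul_comm ((p : ℤ) ^ c)]
    exact mul_dvd_mul_left _ hF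
  · have h := hJD0 G p L Z P hZp hZL hPp hPL hPn hPZ
      (fun N => (Nat.card N : ℤ) * ((BZ M L θ Z N).ncard : ℤ))
    rw [show (∑ᶠ C ∈ {C : Finset (Subgroup G) | NCh p L Z C},
      (-1 : ℤ) ^ (C.card + 1) * ((Nat.card (L ⊓ nrm C : Subgroup G) : ℤ) * ((BZ M L θ Z (L ⊓ nrm C)).ncard : ℤ))) = 0
      from h]
    exact dvd_zero _

end Pool.Agent.FI3
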