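import Pool.Agent.helper22.FI3.SpecCQ

set_option autoImplicit false

namespace Pool.Agent.FI3

open Pool.Agent.helper58.DC Pool.Agent.DI Pool.Agent.GR Pool.Agent.OB Pool.Agent.DR Pool.Agent.FI

theorem JD1_mul {α : Type} (s : Set α) (hs : s.Finite) (f : α → ℤ) (c : ℤ) :
    c * ∑ᶠ i ∈ s, f i = ∑ᶠ i ∈ s, c * f i := by
  rw [finsum_mem_eq_finite_toFinset_sum _ hs, finsum_mem_eq_finite_toFinset_sum _ hs, Finset.mul_sum]

theorem JD1 (hJT0 : JT0_stmt) (hJCH : JCH_stmt) (hJSG : JSG_stmt) (hJNB : JNB_stmt) : JD1_stmt := by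
  intro p M hs G Gb _ _ _ _ L Z π hq hop χ hχ θ hθ
  have : Fact p.Prime := ⟨hs.pr⟩
  obtain ⟨hS1, -, -, hS4, -, -, -⟩ := hJSG p G Gb L Z π hq
  obtain ⟨hB, hC⟩ := hJCH p G Gb L Z π hq
  have hT := hJT0 p M hs Gb hop χ hχ
  have hL : (Nat.card L : ℤ) = Nat.card Z * Nat.card Gb := by
    have h := (hS1 ⊤).2.2.1
    rw [hS4, Subgroup.card_top] at h
    rw [h]
    push_cast
    ring
  rw [hL, mul_assoc, hT, JD1_mul _ (Set.toFinite _)]
  refine (finsum_mem_eq_of_bijOn _ hB fun Cb hCb => ?_).symm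
  have h1 := hC Cb
  beta_reduce
  rw [h1.1, ← h1.2, (hS1 (nrm Cb)).2.2.1, hJNB p M hs G Gb L Z π hq χ hχ θ hθ Cb hCb]
  push_cast
  ring

end Pool.Agent.FI3
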