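import Pool.Agent.helper58.FI3.SpecF3

set_option autoImplicit false

namespace Pool.Agent.FI3

open Pool.Agent.helper58.DC Pool.Agent.DI Pool.Agent.GR Pool.Agent.OB Pool.Agent.DR Pool.Agent.FI

theorem FBB3 (hFSI : FSI_stmt) (hIM : IM_stmt) (hC3 : C3_stmt) : FBB3_stmt := by
  intro p M hs G _ _ θ χ H N _ _ hi φ _
  constructor
  · intro h
    exact ((hFSI p M hs G ⊤ ⊤ φ θ).2 (fun x hx => absurd (Subgroup.mem_top x) hx)
      (fun x hx => absurd (Subgroup.mem_top x) hx) h χ).2 hi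
  · intro h z hz hzi
    have h1 : Induces M χ θ := (hIM G M θ χ θ).2.1 hi
    have h2 : Induces M φ θ := (hIM G M φ χ θ).2.2.1 h h1
    have : Fact p.Prime := ⟨hs.pr⟩
    exact (hC3 G).2.2.1 p M hs.max hs.mem φ θ h2 z ⟨fun x y => hz.1 y (Subgroup.mem_top y) x, hzi⟩

end Pool.Agent.FI3
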